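import Mathlib

/-!
# Amalgamation of real zero polynomials in two shared variables fails in degree three

Let `μ₁`, `μ₂` be the roots of `9 μ² = 2 μ + 3`. Both cubics `F μ (x₁, x₂, y)` have (up to a
constant) a real symmetric linear determinantal representation which is positive definite at the
origin, and four real nodes. They agree for `y = 0`: the cubic curve has two inequivalent definite
representations. A real zero cubic extending both is singular at all eight nodes, and this gives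
incompatible linear conditions on the free coefficients.
-/

set_option autoImplicit false

namespace Pool.Agent.Results.MP_eea824_ag.NoCubicAmalgamH5

open MvPolynomial

/-- A real polynomial `f` is a real zero polynomial if for every real vector `a` and every complex
number `t` with `f (t a) = 0` the number `t` is real. -/
def IsRealZero {σ : Type} (f : MvPolynomial σ ℝ) : Prop :=
  ∀ (a : σ → ℝ) (t : ℂ), aeval (fun i => t * (a i : ℂ)) f = 0 → t.im = 0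

/-- `p(x, y) ↦ p(x, 0)`, where `x` is the pair of the variables `X (inl 0)`, `X (inl 1)`. -/
noncomputable def sharedPart {m : ℕ} (p : MvPolynomial (Fin 2 ⊕ Fin m) ℝ) :
    MvPolynomial (Fin 2) ℝ :=
  aeval (Sum.elim (fun i => X i) (fun _ => 0)) p

/-- `r(x, y, z) ↦ r(x, y, 0)`. -/
noncomputable def setZ {m n : ℕ} (r : MvPolynomial (Fin 2 ⊕ (Fin m ⊕ Fin n)) ℝ) :
    MvPolynomial (Fin 2 ⊕ Fin m) ℝ :=
  aeval (Sum.elim (fun i => X (Sum.inl i)) (Sum.elim (fun j => X (Sum.inr j)) (fun _ => 0))) r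

/-- `r(x, y, z) ↦ r(x, 0, z)`. -/
noncomputable def setY {m n : ℕ} (r : MvPolynomial (Fin 2 ⊕ (Fin m ⊕ Fin n)) ℝ) :
    MvPolynomial (Fin 2 ⊕ Fin n) ℝ :=
  aeval (Sum.elim (fun i => X (Sum.inl i)) (Sum.elim (fun _ => 0) (fun j => X (Sum.inr j)))) r

theorem disc_nonneg (a b c d : ℝ) (ha : a ≠ 0)
    (h : ∀ s : ℂ, (a : ℂ) * s ^ 3 + b * s ^ 2 + c * s + d = 0 → s.im = 0) :
    0 ≤ b ^ 2 * c ^ 2 - 4 * a * c ^ 3 - 4 * b ^ 3 * d - 27 * a ^ 2 * d ^ 2 +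
      18 * a * b * c * d := by
  let P : Cubic ℝ := ⟨a, b, c, d⟩
  have hsplit : (P.toPoly.map (algebraMap ℝ ℂ)).Splits := IsAlgClosed.splits _
  obtain ⟨x, y, z, h3⟩ := (Cubic.splits_iff_roots_eq_three (P := P) ha).1 hsplit
  have hne : (Cubic.map (algebraMap ℝ ℂ) P).toPoly ≠ 0 := by
    apply Cubic.ne_zero_of_a_ne_zero
    simpa [Cubic.map] using ha
  have hreal : ∀ s ∈ ({x, y, z} : Multiset ℂ), s.im = 0 := by
    intro s hs
    rw [← h3, Cubic.mem_roots_iff hne] at hs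
    exact h s hs
  have hx : (x.re : ℂ) = x := Complex.ext (by simp) (by simp [hreal x (by simp)])
  have hy : (y.re : ℂ) = y := Complex.ext (by simp) (by simp [hreal y (by simp)])
  have hz : (z.re : ℂ) = z := Complex.ext (by simp) (by simp [hreal z (by simp)])
  have hd := Cubic.discr_eq_prod_three_roots (P := P) (φ := algebraMap ℝ ℂ) ha h3
  have h4 : P.discr = (a * a * (x.re - y.re) * (x.re - z.re) * (y.re - z.re)) ^ 2 := by
    have h5 : ((P.discr : ℝ) : ℂ) =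
        (((a * a * (x.re - y.re) * (x.re - z.re) * (y.re - z.re)) ^ 2 : ℝ) : ℂ) := by
      push_cast
      rw [hx, hy, hz]
      exact hd
    exact_mod_cast h5
  have h6 : P.discr = b ^ 2 * c ^ 2 - 4 * a * c ^ 3 - 4 * b ^ 3 * d - 27 * a ^ 2 * d ^ 2 +
      18 * a * b * c * d := rfl
  rw [← h6, h4]
  positivity

/-- If the real cubics `c₀ s³ + c₁(ε) s² + c₂(ε) s + c₃(ε)` have nonnegative discriminants, and the
one for `ε = 0` has `1` as an exact double root, then the derivative in `ε` of the value at `1`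
is `0`. -/
theorem deriv_zero (c0 : ℝ) (c1 c2 c3 : ℝ → ℝ) (d1 d2 d3 : ℝ)
    (h1 : HasDerivAt c1 d1 0) (h2 : HasDerivAt c2 d2 0) (h3 : HasDerivAt c3 d3 0)
    (hr : c0 + c1 0 + c2 0 + c3 0 = 0) (hr' : c1 0 + 2 * c2 0 + 3 * c3 0 = 0)
    (hr'' : c2 0 + 3 * c3 0 ≠ 0)
    (hdisc : ∀ e : ℝ, 0 ≤ c1 e ^ 2 * c2 e ^ 2 - 4 * c0 * c2 e ^ 3 - 4 * c1 e ^ 3 * c3 e -
      27 * c0 ^ 2 * c3 e ^ 2 + 18 * c0 * c1 e * c2 e * c3 e) :
    d1 + d2 + d3 = 0 := by
  set f : ℝ → ℝ := fun e => c1 e ^ 2 * c2 e ^ 2 - 4 * c0 * c2 e ^ 3 - 4 * c1 e ^ 3 * c3 e -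
      27 * c0 ^ 2 * c3 e ^ 2 + 18 * c0 * c1 e * c2 e * c3 e with hf
  have hc1 : c1 0 = -2 * c2 0 - 3 * c3 0 := by linarith
  have hc0 : c0 = c2 0 + 2 * c3 0 := by linarith
  have hf0 : f 0 = 0 := by
    simp only [hf]
    rw [hc1, hc0]
    ring
  have hmin : IsLocalMin f 0 := by
    refine Filter.Eventually.of_forall fun e => ?_
    rw [hf0]
    exact hdisc e
  have hder : HasDerivAt f ((2 * c1 0 * d1) * c2 0 ^ 2 + c1 0 ^ 2 * (2 * c2 0 * d2) -
      4 * c0 * (3 * c2 0 ^ 2 * d2) - (4 * (3 * c1 0 ^ 2 * d1) * c3 0 + 4 * c1 0 ^ 3 * d3) -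
      27 * c0 ^ 2 * (2 * c3 0 * d3) +
      ((18 * c0 * d1 * c2 0 + 18 * c0 * c1 0 * d2) * c3 0 + 18 * c0 * c1 0 * c2 0 * d3)) 0 := by
    have e1 := ((h1.fun_pow 2).fun_mul (h2.fun_pow 2))
    have e2 := ((h2.fun_pow 3).const_mul (4 * c0))
    have e3 := (((h1.fun_pow 3).const_mul 4).fun_mul h3)
    have e4 := ((h3.fun_pow 2).const_mul (27 * c0 ^ 2))
    have e5 := (((h1.const_mul (18 * c0)).fun_mul h2).fun_mul h3)
    have e6 := (((e1.fun_sub e2).fun_sub e3).fun_sub e4).fun_add e5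
    refine e6.congr_deriv ?_
    push_cast
    ring
  have hz := hmin.hasDerivAt_eq_zero hder
  have hK : -4 * (c2 0 + 3 * c3 0) ^ 3 * (d1 + d2 + d3) = 0 := by
    rw [hc1, hc0] at hz
    linear_combination hz
  rcases mul_eq_zero.1 hK with h | h
  · exfalso
    apply hr''
    have h' : (c2 0 + 3 * c3 0) ^ 3 = 0 := by linarith
    exact pow_eq_zero_iff (by norm_num) |>.1 h'
  · exact h


/-- The cubic. -/
def F {A : Type} [CommRing A] (μ x₁ x₂ y : A) : A :=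
  31 * (1 + x₁) * (1 + x₂) - 9 * (1 + x₁) ^ 3 - 9 * (1 + x₂) ^ 3 - 9 +
    18 * (μ * (3 + 2 * (x₁ + x₂) + x₁ * x₂) - (3 + 2 * (x₁ + x₂) + x₁ ^ 2 + x₂ ^ 2)) * y +
    9 * (2 * μ - 1) * (3 + x₁ + x₂) * y ^ 2 + 18 * μ * y ^ 3

theorem map_F {A B : Type} [CommRing A] [CommRing B] (f : A →+* B) (μ x y z : A) :
    f (F μ x y z) = F (f μ) (f x) (f y) (f z) := by
  simp only [F, map_add, map_sub, map_mul, map_pow, map_one, map_ofNat]

theorem F_zero {A : Type} [CommRing A] (μ μ' x₁ x₂ : A) : F μ x₁ x₂ 0 = F μ' x₁ x₂ 0 := by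
  simp only [F]; ring

/-- The matrix of the determinantal representation. -/
def M (μ : ℝ) (x₁ x₂ y : ℂ) : Matrix (Fin 3) (Fin 3) ℂ :=
  !![1 + x₁, μ * (1 + y), μ * (1 + x₂ + y);
     μ * (1 + y), 1 + x₂, μ * (1 + x₁ + y);
     μ * (1 + x₂ + y), μ * (1 + x₁ + y), 1]

theorem det_M (μ : ℝ) (hμ : 9 * μ ^ 2 = 2 * μ + 3) (x₁ x₂ y : ℂ) :
    9 * (M μ x₁ x₂ y).det = (μ : ℂ) ^ 2 * F (μ : ℂ) x₁ x₂ y := by
  have h : (9 : ℂ) * (μ : ℂ) ^ 2 = 2 * μ + 3 := by exact_mod_cast hμ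
  rw [Matrix.det_fin_three]
  simp only [M, Matrix.of_apply, Matrix.cons_val', Matrix.cons_val_zero, Matrix.cons_val_one,
    Matrix.cons_val, F]
  linear_combination ((1 + x₁) * (1 + x₂) * (2 * (μ : ℂ) - 3)) * h

/-- The cubic is real zero: its determinantal representation is positive definite at the origin. -/
theorem F_realZero (μ : ℝ) (hμ : 9 * μ ^ 2 = 2 * μ + 3) (h1 : -1 / 2 < μ) (h2 : μ < 1)
    (a₁ a₂ a₃ : ℝ) (t : ℂ) (h : F (μ : ℂ) (t * a₁) (t * a₂) (t * a₃) = 0) : t.im = 0 := by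
  have hdet : (M μ (t * a₁) (t * a₂) (t * a₃)).det = 0 := by
    have := det_M μ hμ (t * a₁) (t * a₂) (t * a₃)
    rw [h, mul_zero] at this
    simpa using this
  obtain ⟨v, hv, hMv⟩ := Matrix.exists_mulVec_eq_zero_iff.2 hdet
  have e0 := congrFun hMv 0
  have e1 := congrFun hMv 1
  have e2 := congrFun hMv 2
  simp only [Matrix.mulVec, dotProduct, M, Fin.sum_univ_three, Matrix.of_apply, Matrix.cons_val',
    Matrix.cons_val_zero, Matrix.cons_val_one, Matrix.cons_val, Pi.zero_apply] at e0 e1 e2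
  have r0 := congrArg Complex.re e0
  have i0 := congrArg Complex.im e0
  have r1 := congrArg Complex.re e1
  have i1 := congrArg Complex.im e1
  have r2 := congrArg Complex.re e2
  have i2 := congrArg Complex.im e2
  simp at r0 i0 r1 i1 r2 i2
  set x0 := (v 0).re
  set y0 := (v 0).im
  set x1 := (v 1).re
  set y1 := (v 1).im
  set x2 := (v 2).re
  set y2 := (v 2).im
  set p := t.re
  set q := t.im
  -- `A` is the value of the form at the origin, `B` the value in the direction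
  set A : ℝ := x0 ^ 2 + y0 ^ 2 + x1 ^ 2 + y1 ^ 2 + x2 ^ 2 + y2 ^ 2 +
    2 * μ * (x0 * x1 + y0 * y1 + x0 * x2 + y0 * y2 + x1 * x2 + y1 * y2) with hA
  set B : ℝ := a₁ * (x0 ^ 2 + y0 ^ 2) + a₂ * (x1 ^ 2 + y1 ^ 2) +
    2 * μ * (a₃ * (x0 * x1 + y0 * y1) + (a₂ + a₃) * (x0 * x2 + y0 * y2) +
      (a₁ + a₃) * (x1 * x2 + y1 * y2)) with hB
  have hRe : A + p * B = 0 := by
    rw [hA, hB]
    linear_combination x0 * r0 + y0 * i0 + x1 * r1 + y1 * i1 + x2 * r2 + y2 * i2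
  have hIm : q * B = 0 := by
    rw [hB]
    linear_combination x0 * i0 - y0 * r0 + x1 * i1 - y1 * r1 + x2 * i2 - y2 * r2
  by_contra hq
  have hB0 : B = 0 := (mul_eq_zero.1 hIm).resolve_left hq
  have hA0 : A = 0 := by rw [hB0] at hRe; linarith
  have hpos : 0 < x0 ^ 2 + y0 ^ 2 + x1 ^ 2 + y1 ^ 2 + x2 ^ 2 + y2 ^ 2 := by
    by_contra hn
    apply hv
    have hn' := not_lt.1 hn
    have q0 := sq_nonneg x0
    have q1 := sq_nonneg x1
    have q2 := sq_nonneg x2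
    have q3 := sq_nonneg y0
    have q4 := sq_nonneg y1
    have q5 := sq_nonneg y2
    have hx0 : x0 = 0 := pow_eq_zero_iff (two_ne_zero) |>.1 (by linarith : x0 ^ 2 = 0)
    have hy0 : y0 = 0 := pow_eq_zero_iff (two_ne_zero) |>.1 (by linarith : y0 ^ 2 = 0)
    have hx1 : x1 = 0 := pow_eq_zero_iff (two_ne_zero) |>.1 (by linarith : x1 ^ 2 = 0)
    have hy1 : y1 = 0 := pow_eq_zero_iff (two_ne_zero) |>.1 (by linarith : y1 ^ 2 = 0)
    have hx2 : x2 = 0 := pow_eq_zero_iff (two_ne_zero) |>.1 (by linarith : x2 ^ 2 = 0)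
    have hy2 : y2 = 0 := pow_eq_zero_iff (two_ne_zero) |>.1 (by linarith : y2 ^ 2 = 0)
    ext i
    fin_cases i
    · exact Complex.ext hx0 hy0
    · exact Complex.ext hx1 hy1
    · exact Complex.ext hx2 hy2
  have hA' : A = (1 - μ) / 3 * ((x0 - x1) ^ 2 + (x0 - x2) ^ 2 + (x1 - x2) ^ 2 + (y0 - y1) ^ 2 +
      (y0 - y2) ^ 2 + (y1 - y2) ^ 2) + (1 + 2 * μ) / 3 * ((x0 + x1 + x2) ^ 2 +
      (y0 + y1 + y2) ^ 2) := by
    rw [hA]; ring
  have hs : x0 ^ 2 + y0 ^ 2 + x1 ^ 2 + y1 ^ 2 + x2 ^ 2 + y2 ^ 2 =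
      (1 / 3) * ((x0 - x1) ^ 2 + (x0 - x2) ^ 2 + (x1 - x2) ^ 2 + (y0 - y1) ^ 2 +
      (y0 - y2) ^ 2 + (y1 - y2) ^ 2) + (1 / 3) * ((x0 + x1 + x2) ^ 2 + (y0 + y1 + y2) ^ 2) := by
    ring
  rw [hs] at hpos
  rw [hA'] at hA0
  set U := (x0 - x1) ^ 2 + (x0 - x2) ^ 2 + (x1 - x2) ^ 2 + (y0 - y1) ^ 2 +
      (y0 - y2) ^ 2 + (y1 - y2) ^ 2 with hU
  set W := (x0 + x1 + x2) ^ 2 + (y0 + y1 + y2) ^ 2 with hW
  have hU0 : 0 ≤ U := by rw [hU]; positivity
  have hW0 : 0 ≤ W := by rw [hW]; positivity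
  have k1 : 0 < (1 - μ) / 3 := by linarith
  have k2 : 0 < (1 + 2 * μ) / 3 := by linarith
  have m1 : 0 ≤ (1 - μ) / 3 * U := mul_nonneg k1.le hU0
  have m2 : 0 ≤ (1 + 2 * μ) / 3 * W := mul_nonneg k2.le hW0
  have hU1 : U = 0 := by
    have : (1 - μ) / 3 * U = 0 := by linarith
    exact (mul_eq_zero.1 this).resolve_left k1.ne'
  have hW1 : W = 0 := by
    have : (1 + 2 * μ) / 3 * W = 0 := by linarith
    exact (mul_eq_zero.1 this).resolve_left k2.ne'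
  rw [hU1, hW1] at hpos
  norm_num at hpos


theorem X_dvd_of_aeval_eq_zero {σ : Type} [DecidableEq σ] (i : σ) (f : MvPolynomial σ ℝ)
    (h : aeval (fun j => if j = i then (0 : MvPolynomial σ ℝ) else X j) f = 0) :
    (X i : MvPolynomial σ ℝ) ∣ f := by
  rw [← Ideal.mem_span_singleton, ← Ideal.Quotient.eq_zero_iff_mem]
  have key : (Ideal.Quotient.mkₐ ℝ (Ideal.span {(X i : MvPolynomial σ ℝ)})) =
      (Ideal.Quotient.mkₐ ℝ (Ideal.span {(X i : MvPolynomial σ ℝ)})).comp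
        (aeval (fun j => if j = i then (0 : MvPolynomial σ ℝ) else X j)) := by
    apply MvPolynomial.algHom_ext
    intro j
    rw [AlgHom.comp_apply, aeval_X]
    by_cases hj : j = i
    · rw [if_pos hj, map_zero, hj]
      exact Ideal.Quotient.eq_zero_iff_mem.2 (Ideal.mem_span_singleton_self _)
    · rw [if_neg hj]
  have h2 := congrArg (fun g => g f) key
  simp only [AlgHom.comp_apply, h, map_zero] at h2
  exact h2

theorem eval_of_totalDegree_le_one (L : MvPolynomial (Fin 4) ℝ) (h : L.totalDegree ≤ 1) :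
    ∃ l0 l1 l2 l3 l4 : ℝ, ∀ x : Fin 4 → ℂ,
      aeval x L = l0 + l1 * x 0 + l2 * x 1 + l3 * x 2 + l4 * x 3 := by
  refine ⟨coeff 0 L, coeff (Finsupp.single 0 1) L, coeff (Finsupp.single 1 1) L,
    coeff (Finsupp.single 2 1) L, coeff (Finsupp.single 3 1) L, fun x => ?_⟩
  have hL : L = C (coeff 0 L) + C (coeff (Finsupp.single 0 1) L) * X 0 +
      C (coeff (Finsupp.single 1 1) L) * X 1 + C (coeff (Finsupp.single 2 1) L) * X 2 +
      C (coeff (Finsupp.single 3 1) L) * X 3 := by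
    ext s
    by_cases hs : s ∈ L.support
    · have h1 := (le_totalDegree hs).trans h
      have h2 : s.sum (fun _ e => e) = s 0 + s 1 + s 2 + s 3 := by
        rw [Finsupp.sum_fintype _ _ (fun _ => rfl), Fin.sum_univ_four]
      rw [h2] at h1
      have hcases : s = 0 ∨ s = Finsupp.single 0 1 ∨ s = Finsupp.single 1 1 ∨
          s = Finsupp.single 2 1 ∨ s = Finsupp.single 3 1 := by
        have hext : ∀ u : Fin 4 →₀ ℕ, s 0 = u 0 → s 1 = u 1 → s 2 = u 2 → s 3 = u 3 → s = u := by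
          intro u a b c d
          ext i
          fin_cases i <;> assumption
        rcases Nat.eq_zero_or_pos (s 0) with a | a
        · rcases Nat.eq_zero_or_pos (s 1) with b | b
          · rcases Nat.eq_zero_or_pos (s 2) with c | c
            · rcases Nat.eq_zero_or_pos (s 3) with d | d
              · left
                exact hext _ a b c d
              · right; right; right; right
                apply hext <;> simp <;> omega
            · right; right; right; left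
              apply hext <;> simp <;> omega
          · right; right; left
            apply hext <;> simp <;> omega
        · right; left
          apply hext <;> simp <;> omega
      rcases hcases with rfl | rfl | rfl | rfl | rfl
      · simp [coeff_C_mul, coeff_X]
      all_goals
        simp only [coeff_add, coeff_C_mul, coeff_X, coeff_C, Finsupp.single_left_inj, ne_eq,
          one_ne_zero, not_false_eq_true]
        rw [if_neg]
        · simp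
        · intro h0
          have h3 := congrArg (fun u : Fin 4 →₀ ℕ => u 0 + u 1 + u 2 + u 3) h0
          simp at h3
    · have hz : coeff s L = 0 := by simpa using hs
      have hn : ∀ u, u = s → coeff u L = 0 := fun u hu => hu ▸ hz
      have hj : ∀ j : Fin 4, coeff s (C (coeff (Finsupp.single j 1) L) * X j :
          MvPolynomial (Fin 4) ℝ) = 0 := by
        intro j
        rw [coeff_C_mul, coeff_X]
        split_ifs with hc
        · rw [hn _ hc, zero_mul]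
        · rw [mul_zero]
      have h0 : coeff s (C (coeff 0 L) : MvPolynomial (Fin 4) ℝ) = 0 := by
        rw [coeff_C]
        split_ifs with hc
        · exact hn _ hc
        · rfl
      rw [hz, coeff_add, coeff_add, coeff_add, coeff_add, hj, hj, hj, hj, h0]
      simp
  conv_lhs => rw [hL]
  simp only [map_add, map_mul, aeval_X, aeval_C]
  rfl


theorem totalDegree_aeval_le {σ τ : Type} (g : σ → MvPolynomial τ ℝ)
    (hg : ∀ i, (g i).totalDegree ≤ 1) (f : MvPolynomial σ ℝ) :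
    (aeval g f).totalDegree ≤ f.totalDegree := by
  classical
  conv_lhs => rw [f.as_sum, map_sum]
  apply totalDegree_finsetSum_le
  intro s hs
  rw [aeval_monomial]
  refine (totalDegree_mul _ _).trans ?_
  have h1 : (algebraMap ℝ (MvPolynomial τ ℝ) (coeff s f)).totalDegree = 0 := totalDegree_C _
  rw [h1, zero_add, Finsupp.prod]
  refine (totalDegree_finsetProd _ _).trans ?_
  refine le_trans ?_ (le_totalDegree hs)
  rw [Finsupp.sum]
  apply Finset.sum_le_sum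
  intro i _
  refine (totalDegree_pow _ _).trans ?_
  calc s i * (g i).totalDegree ≤ s i * 1 := Nat.mul_le_mul_left _ (hg i)
    _ = s i := mul_one _


/-- The coefficients of `t`, `t²`, `t³` along the line through `(v₀, v₁, v₂, v₃)`. -/
def K1 (μ μ' v0 v1 v2 v3 : ℝ) : ℝ :=
  4 * (v0 + v1) + 54 * (μ - 1) * v2 + 54 * (μ' - 1) * v3

def K2 (μ μ' l0 v0 v1 v2 v3 : ℝ) : ℝ :=
  31 * v0 * v1 - 27 * v0 ^ 2 - 27 * v1 ^ 2 + 36 * (μ - 1) * (v0 + v1) * v2 +
    36 * (μ' - 1) * (v0 + v1) * v3 + 27 * (2 * μ - 1) * v2 ^ 2 + 27 * (2 * μ' - 1) * v3 ^ 2 +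
    l0 * v2 * v3

def K3 (μ μ' l1 l2 l3 l4 v0 v1 v2 v3 : ℝ) : ℝ :=
  -9 * v0 ^ 3 - 9 * v1 ^ 3 + 18 * (μ * v0 * v1 - v0 ^ 2 - v1 ^ 2) * v2 +
    18 * (μ' * v0 * v1 - v0 ^ 2 - v1 ^ 2) * v3 + 9 * (2 * μ - 1) * (v0 + v1) * v2 ^ 2 +
    9 * (2 * μ' - 1) * (v0 + v1) * v3 ^ 2 + 18 * μ * v2 ^ 3 + 18 * μ' * v3 ^ 3 +
    v2 * v3 * (l1 * v0 + l2 * v1 + l3 * v2 + l4 * v3)

def Disc (μ μ' l0 l1 l2 l3 l4 v0 v1 v2 v3 : ℝ) : ℝ :=
  K1 μ μ' v0 v1 v2 v3 ^ 2 * K2 μ μ' l0 v0 v1 v2 v3 ^ 2 - 4 * 4 * K2 μ μ' l0 v0 v1 v2 v3 ^ 3 -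
    4 * K1 μ μ' v0 v1 v2 v3 ^ 3 * K3 μ μ' l1 l2 l3 l4 v0 v1 v2 v3 -
    27 * 4 ^ 2 * K3 μ μ' l1 l2 l3 l4 v0 v1 v2 v3 ^ 2 +
    18 * 4 * K1 μ μ' v0 v1 v2 v3 * K2 μ μ' l0 v0 v1 v2 v3 * K3 μ μ' l1 l2 l3 l4 v0 v1 v2 v3

theorem hasDerivAt_poly (A B C D : ℝ) :
    HasDerivAt (fun e : ℝ => A + B * e + C * e ^ 2 + D * e ^ 3) B 0 := by
  have h1 := (((hasDerivAt_const (0 : ℝ) A).fun_add ((hasDerivAt_id' (0 : ℝ)).const_mul B)).fun_add
    ((hasDerivAt_pow 2 (0 : ℝ)).const_mul C)).fun_add ((hasDerivAt_pow 3 (0 : ℝ)).const_mul D)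
  refine h1.congr_deriv ?_
  norm_num

theorem node {μ μ' l0 l1 l2 l3 l4 : ℝ}
    (HR : ∀ v0 v1 v2 v3 : ℝ, 0 ≤ Disc μ μ' l0 l1 l2 l3 l4 v0 v1 v2 v3) (v0 v1 v2 : ℝ)
    (h1 : 4 + K1 μ μ' v0 v1 v2 0 + K2 μ μ' l0 v0 v1 v2 0 + K3 μ μ' l1 l2 l3 l4 v0 v1 v2 0 = 0)
    (h2 : K1 μ μ' v0 v1 v2 0 + 2 * K2 μ μ' l0 v0 v1 v2 0 +
      3 * K3 μ μ' l1 l2 l3 l4 v0 v1 v2 0 = 0)
    (h3 : K2 μ μ' l0 v0 v1 v2 0 + 3 * K3 μ μ' l1 l2 l3 l4 v0 v1 v2 0 ≠ 0) :
    54 * (μ' - 1) + (36 * (μ' - 1) * (v0 + v1) + l0 * v2) +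
      (18 * (μ' * v0 * v1 - v0 ^ 2 - v1 ^ 2) + v2 * (l1 * v0 + l2 * v1 + l3 * v2)) = 0 := by
  refine deriv_zero 4 (fun e => K1 μ μ' v0 v1 v2 e) (fun e => K2 μ μ' l0 v0 v1 v2 e)
    (fun e => K3 μ μ' l1 l2 l3 l4 v0 v1 v2 e) _ _ _ ?_ ?_ ?_ h1 h2 h3
    (fun e => HR v0 v1 v2 e)
  · convert hasDerivAt_poly (4 * (v0 + v1) + 54 * (μ - 1) * v2) (54 * (μ' - 1)) 0 0 using 2
    simp only [K1]; ring
  · convert hasDerivAt_poly (31 * v0 * v1 - 27 * v0 ^ 2 - 27 * v1 ^ 2 +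
      36 * (μ - 1) * (v0 + v1) * v2 + 27 * (2 * μ - 1) * v2 ^ 2)
      (36 * (μ' - 1) * (v0 + v1) + l0 * v2) (27 * (2 * μ' - 1)) 0 using 2
    simp only [K2]; ring
  · convert hasDerivAt_poly (-9 * v0 ^ 3 - 9 * v1 ^ 3 + 18 * (μ * v0 * v1 - v0 ^ 2 - v1 ^ 2) * v2 +
      9 * (2 * μ - 1) * (v0 + v1) * v2 ^ 2 + 18 * μ * v2 ^ 3)
      (18 * (μ' * v0 * v1 - v0 ^ 2 - v1 ^ 2) + v2 * (l1 * v0 + l2 * v1 + l3 * v2))
      (9 * (2 * μ' - 1) * (v0 + v1) + l4 * v2) (18 * μ') using 2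
    simp only [K3]; ring

theorem solve {μ μ' l0 l1 l2 l3 l4 : ℝ} (hμ : 9 * μ ^ 2 = 2 * μ + 3) (hμ' : μ' = 2 / 9 - μ)
    (HR : ∀ v0 v1 v2 v3 : ℝ, 0 ≤ Disc μ μ' l0 l1 l2 l3 l4 v0 v1 v2 v3) :
    l0 = -(9 * (18 - 432 * μ) / 19) := by
  have hne : ∀ a b : ℝ, 9 * a ^ 2 + 2 * a * b - 3 * b ^ 2 ≠ 0 → a + b * μ ≠ 0 := by
    intro a b h h0
    apply h
    linear_combination (9 * a - 9 * b * μ + 2 * b) * h0 + b ^ 2 * hμ
  have n0 := node HR 0 0 (-5 / 3 + 3 * μ)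
    (by simp only [K1, K2, K3]; linear_combination (-19 / 3 - 24 * μ + 54 * μ ^ 2) * hμ)
    (by simp only [K1, K2, K3]; linear_combination (20 - 126 * μ + 162 * μ ^ 2) * hμ)
    (by
      have e : K2 μ μ' l0 0 0 (-5 / 3 + 3 * μ) 0 + 3 * K3 μ μ' l1 l2 l3 l4 0 0 (-5 / 3 + 3 * μ) 0 =
          156 + (-216) * μ := by
        simp only [K2, K3]; linear_combination (77 - 180 * μ + 162 * μ ^ 2) * hμ
      rw [e]
      exact hne _ _ (by norm_num))
  have n1 := node HR (19 / 9 + 4 * μ) 0 (-34 / 9 - μ)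
    (by simp only [K1, K2, K3]; linear_combination (494 / 27 - 8 / 3 * μ + 6 * μ ^ 2) * hμ)
    (by simp only [K1, K2, K3]; linear_combination (383 / 3 + 2 * μ + 18 * μ ^ 2) * hμ)
    (by
      have e : K2 μ μ' l0 (19 / 9 + 4 * μ) 0 (-34 / 9 - μ) 0 +
          3 * K3 μ μ' l1 l2 l3 l4 (19 / 9 + 4 * μ) 0 (-34 / 9 - μ) 0 =
          1858 / 9 + (-146) * μ := by
        simp only [K2, K3]; linear_combination (1750 / 9 + 12 * μ + 18 * μ ^ 2) * hμ
      rw [e]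
      exact hne _ _ (by norm_num))
  have n2 := node HR 0 (19 / 9 + 4 * μ) (-34 / 9 - μ)
    (by simp only [K1, K2, K3]; linear_combination (494 / 27 - 8 / 3 * μ + 6 * μ ^ 2) * hμ)
    (by simp only [K1, K2, K3]; linear_combination (383 / 3 + 2 * μ + 18 * μ ^ 2) * hμ)
    (by
      have e : K2 μ μ' l0 0 (19 / 9 + 4 * μ) (-34 / 9 - μ) 0 +
          3 * K3 μ μ' l1 l2 l3 l4 0 (19 / 9 + 4 * μ) (-34 / 9 - μ) 0 =
          1858 / 9 + (-146) * μ := by
        simp only [K2, K3]; linear_combination (1750 / 9 + 12 * μ + 18 * μ ^ 2) * hμ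
      rw [e]
      exact hne _ _ (by norm_num))
  have n3 := node HR (-7 / 16 - 9 / 16 * μ) (-7 / 16 - 9 / 16 * μ) (-31 / 16 + 27 / 16 * μ)
    (by
      simp only [K1, K2, K3]
      linear_combination (2943 / 512 - 2835 / 256 * μ + 2187 / 512 * μ ^ 2) * hμ)
    (by
      simp only [K1, K2, K3]
      linear_combination (16929 / 512 - 10935 / 256 * μ + 6561 / 512 * μ ^ 2) * hμ)
    (by
      have e : K2 μ μ' l0 (-7 / 16 - 9 / 16 * μ) (-7 / 16 - 9 / 16 * μ)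
          (-31 / 16 + 27 / 16 * μ) 0 + 3 * K3 μ μ' l1 l2 l3 l4 (-7 / 16 - 9 / 16 * μ)
          (-7 / 16 - 9 / 16 * μ) (-31 / 16 + 27 / 16 * μ) 0 = 287 / 2 + (-180) * μ := by
        simp only [K2, K3]
        linear_combination (30213 / 512 - 13365 / 256 * μ + 6561 / 512 * μ ^ 2) * hμ
      rw [e]
      exact hne _ _ (by norm_num))
  subst hμ'
  linear_combination ((387/4) + (-543/4)*μ)*n0 + ((-3747/133) + (5359/133)*μ)*n1 + ((-3747/133) + (5359/133)*μ)*n2 + ((-5440/133) + (7744/133)*μ)*n3 - (((-207257/4788))*l0 + ((-2729401/43092) + (-115147/4788)*μ)*l1 + ((-2729401/43092) + (-115147/4788)*μ)*l2 + ((260419/1134) + (-13655/126)*μ)*l3 + ((-1891705/798) + (-987195/266)*μ + (-9801/266)*μ^2)*1)*hμ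

theorem contradiction {μ μ' l0 l1 l2 l3 l4 : ℝ} (hμ : 9 * μ ^ 2 = 2 * μ + 3)
    (hμ' : μ' = 2 / 9 - μ)
    (HR : ∀ v0 v1 v2 v3 : ℝ, 0 ≤ Disc μ μ' l0 l1 l2 l3 l4 v0 v1 v2 v3) : False := by
  have e1 := solve hμ hμ' HR
  have e2 := solve (μ := μ') (μ' := μ) (l0 := l0) (l1 := l1) (l2 := l2) (l3 := l4) (l4 := l3)
    (by rw [hμ']; linear_combination hμ) (by rw [hμ']; ring) (by
      intro v0 v1 v2 v3
      have := HR v0 v1 v3 v2
      convert this using 1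
      simp only [Disc, K1, K2, K3]
      ring)
  have h9 : μ = 1 / 9 := by
    rw [e1, hμ'] at e2
    linarith
  rw [h9] at hμ
  norm_num at hμ


theorem cubic_eq (μ μ' l0 l1 l2 l3 l4 v0 v1 v2 v3 : ℝ) (t : ℂ) :
    F (μ : ℂ) (t * v0) (t * v1) (t * v2) + F (μ' : ℂ) (t * v0) (t * v1) (t * v3) -
      F (μ : ℂ) (t * v0) (t * v1) 0 + (t * v2) * (t * v3) *
        (l0 + l1 * (t * v0) + l2 * (t * v1) + l3 * (t * v2) + l4 * (t * v3)) =
      4 + (K1 μ μ' v0 v1 v2 v3 : ℝ) * t + (K2 μ μ' l0 v0 v1 v2 v3 : ℝ) * t ^ 2 +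
        (K3 μ μ' l1 l2 l3 l4 v0 v1 v2 v3 : ℝ) * t ^ 3 := by
  simp only [F, K1, K2, K3]
  push_cast
  ring

/-- The case of four variables. -/
theorem main4 {μ μ' : ℝ} (hμ : 9 * μ ^ 2 = 2 * μ + 3) (hμ' : μ' = 2 / 9 - μ)
    (R : MvPolynomial (Fin 4) ℝ) (hR : IsRealZero R) (hd : R.totalDegree ≤ 3)
    (h3 : aeval (fun j => if j = 3 then (0 : MvPolynomial (Fin 4) ℝ) else X j) R =
      F (C μ) (X 0) (X 1) (X 2))
    (h2 : aeval (fun j => if j = 2 then (0 : MvPolynomial (Fin 4) ℝ) else X j) R =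
      F (C μ') (X 0) (X 1) (X 3))
    (hF : (F (C μ) (X 0) (X 1) (X 2) : MvPolynomial (Fin 4) ℝ).totalDegree ≤ 3)
    (hF' : (F (C μ') (X 0) (X 1) (X 3) : MvPolynomial (Fin 4) ℝ).totalDegree ≤ 3)
    (hF0 : (F (C μ) (X 0) (X 1) 0 : MvPolynomial (Fin 4) ℝ).totalDegree ≤ 3) : False := by
  set D : MvPolynomial (Fin 4) ℝ :=
    R - F (C μ) (X 0) (X 1) (X 2) - F (C μ') (X 0) (X 1) (X 3) + F (C μ) (X 0) (X 1) 0 with hD
  have e3 : aeval (fun j => if j = 3 then (0 : MvPolynomial (Fin 4) ℝ) else X j) D = 0 := by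
    rw [hD, map_add, map_sub, map_sub, h3]
    have hm : ∀ a b c d : MvPolynomial (Fin 4) ℝ,
        aeval (fun j => if j = 3 then (0 : MvPolynomial (Fin 4) ℝ) else X j) (F a b c d) =
        F (aeval (fun j => if j = 3 then (0 : MvPolynomial (Fin 4) ℝ) else X j) a)
          (aeval (fun j => if j = 3 then (0 : MvPolynomial (Fin 4) ℝ) else X j) b)
          (aeval (fun j => if j = 3 then (0 : MvPolynomial (Fin 4) ℝ) else X j) c)
          (aeval (fun j => if j = 3 then (0 : MvPolynomial (Fin 4) ℝ) else X j) d) :=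
      fun a b c d => map_F (aeval (fun j => if j = 3 then (0 : MvPolynomial (Fin 4) ℝ) else X j) :
        MvPolynomial (Fin 4) ℝ →ₐ[ℝ] MvPolynomial (Fin 4) ℝ).toRingHom a b c d
    rw [hm, hm, hm]
    simp only [aeval_X, aeval_C, map_zero]
    rw [if_neg (by decide), if_neg (by decide), if_neg (by decide), if_pos trivial,
      ← MvPolynomial.algebraMap_eq,
      F_zero (algebraMap ℝ (MvPolynomial (Fin 4) ℝ) μ') (algebraMap ℝ (MvPolynomial (Fin 4) ℝ) μ)]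
    ring
  have e2 : aeval (fun j => if j = 2 then (0 : MvPolynomial (Fin 4) ℝ) else X j) D = 0 := by
    rw [hD, map_add, map_sub, map_sub, h2]
    have hm : ∀ a b c d : MvPolynomial (Fin 4) ℝ,
        aeval (fun j => if j = 2 then (0 : MvPolynomial (Fin 4) ℝ) else X j) (F a b c d) =
        F (aeval (fun j => if j = 2 then (0 : MvPolynomial (Fin 4) ℝ) else X j) a)
          (aeval (fun j => if j = 2 then (0 : MvPolynomial (Fin 4) ℝ) else X j) b)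
          (aeval (fun j => if j = 2 then (0 : MvPolynomial (Fin 4) ℝ) else X j) c)
          (aeval (fun j => if j = 2 then (0 : MvPolynomial (Fin 4) ℝ) else X j) d) :=
      fun a b c d => map_F (aeval (fun j => if j = 2 then (0 : MvPolynomial (Fin 4) ℝ) else X j) :
        MvPolynomial (Fin 4) ℝ →ₐ[ℝ] MvPolynomial (Fin 4) ℝ).toRingHom a b c d
    rw [hm, hm, hm]
    simp only [aeval_X, aeval_C, map_zero]
    rw [if_neg (by decide), if_neg (by decide), if_pos trivial, if_neg (by decide),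
      ← MvPolynomial.algebraMap_eq]
    ring
  obtain ⟨G, hG⟩ := X_dvd_of_aeval_eq_zero 3 D e3
  have e2' : aeval (fun j => if j = 2 then (0 : MvPolynomial (Fin 4) ℝ) else X j) G = 0 := by
    rw [hG, map_mul, aeval_X, if_neg (by decide)] at e2
    exact (mul_eq_zero.1 e2).resolve_left (X_ne_zero _)
  obtain ⟨L, hL⟩ := X_dvd_of_aeval_eq_zero 2 G e2'
  have hDd : D.totalDegree ≤ 3 := by
    rw [hD]
    refine (totalDegree_add _ _).trans (max_le ?_ hF0)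
    refine (totalDegree_sub _ _).trans (max_le ?_ hF')
    exact (totalDegree_sub _ _).trans (max_le hd hF)
  have hLd : L.totalDegree ≤ 1 := by
    by_cases hL0 : L = 0
    · rw [hL0, totalDegree_zero]; omega
    · rw [hG, hL, totalDegree_mul_of_isDomain (X_ne_zero _) (mul_ne_zero (X_ne_zero _) hL0),
        totalDegree_mul_of_isDomain (X_ne_zero _) hL0, totalDegree_X, totalDegree_X] at hDd
      omega
  obtain ⟨l0, l1, l2, l3, l4, hl⟩ := eval_of_totalDegree_le_one L hLd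
  apply contradiction hμ hμ' (l0 := l0) (l1 := l1) (l2 := l2) (l3 := l3) (l4 := l4)
  intro v0 v1 v2 v3
  have hRe : R = F (C μ) (X 0) (X 1) (X 2) + F (C μ') (X 0) (X 1) (X 3) -
      F (C μ) (X 0) (X 1) 0 + X 2 * X 3 * L := by
    have h1 : D = X 3 * (X 2 * L) := by rw [hG, hL]
    rw [hD] at h1
    linear_combination h1
  have hval : ∀ t : ℂ, aeval (fun i => t * ((![v0, v1, v2, v3] i : ℝ) : ℂ)) R =
      4 + (K1 μ μ' v0 v1 v2 v3 : ℝ) * t + (K2 μ μ' l0 v0 v1 v2 v3 : ℝ) * t ^ 2 +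
        (K3 μ μ' l1 l2 l3 l4 v0 v1 v2 v3 : ℝ) * t ^ 3 := by
    intro t
    have hm : ∀ a b c d : MvPolynomial (Fin 4) ℝ,
        aeval (fun i => t * ((![v0, v1, v2, v3] i : ℝ) : ℂ)) (F a b c d) =
        F (aeval (fun i => t * ((![v0, v1, v2, v3] i : ℝ) : ℂ)) a)
          (aeval (fun i => t * ((![v0, v1, v2, v3] i : ℝ) : ℂ)) b)
          (aeval (fun i => t * ((![v0, v1, v2, v3] i : ℝ) : ℂ)) c)
          (aeval (fun i => t * ((![v0, v1, v2, v3] i : ℝ) : ℂ)) d) :=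
      fun a b c d => map_F (aeval (fun i => t * ((![v0, v1, v2, v3] i : ℝ) : ℂ)) :
        MvPolynomial (Fin 4) ℝ →ₐ[ℝ] ℂ).toRingHom a b c d
    rw [← cubic_eq, hRe, map_add, map_sub, map_add, map_mul, map_mul, hl, hm, hm, hm]
    simp
  have hdisc := disc_nonneg 4 (K1 μ μ' v0 v1 v2 v3) (K2 μ μ' l0 v0 v1 v2 v3)
    (K3 μ μ' l1 l2 l3 l4 v0 v1 v2 v3) (by norm_num) (by
      intro s hs
      by_cases hs0 : s = 0
      · rw [hs0]; simp
      have ht := hR ![v0, v1, v2, v3] s⁻¹ (by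
        rw [hval]
        have hs' : (4 : ℂ) + (K1 μ μ' v0 v1 v2 v3 : ℝ) * s⁻¹ +
            (K2 μ μ' l0 v0 v1 v2 v3 : ℝ) * s⁻¹ ^ 2 +
            (K3 μ μ' l1 l2 l3 l4 v0 v1 v2 v3 : ℝ) * s⁻¹ ^ 3 =
            s⁻¹ ^ 3 * (((4 : ℝ) : ℂ) * s ^ 3 + (K1 μ μ' v0 v1 v2 v3 : ℝ) * s ^ 2 +
              (K2 μ μ' l0 v0 v1 v2 v3 : ℝ) * s + (K3 μ μ' l1 l2 l3 l4 v0 v1 v2 v3 : ℝ)) := by
          field_simp
          push_cast
          ring
        rw [hs', hs, mul_zero])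
      rw [Complex.inv_im] at ht
      have hns : Complex.normSq s ≠ 0 := by simpa using hs0
      rw [div_eq_zero_iff] at ht
      rcases ht with ht | ht
      · linarith
      · exact absurd ht hns)
  simpa [Disc] using hdisc

/-- Total degree of the cubic. -/
theorem totalDegree_F {σ : Type} (μ : ℝ) (x₁ x₂ y : MvPolynomial σ ℝ) (h1 : x₁.totalDegree ≤ 1)
    (h2 : x₂.totalDegree ≤ 1) (h3 : y.totalDegree ≤ 1) :
    (F (C μ) x₁ x₂ y).totalDegree ≤ 3 := by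
  have e : F (C μ) x₁ x₂ y = aeval ![x₁, x₂, y] (F (C μ) (X 0) (X 1) (X 2) :
      MvPolynomial (Fin 3) ℝ) := by
    rw [show aeval ![x₁, x₂, y] (F (C μ) (X 0) (X 1) (X 2) : MvPolynomial (Fin 3) ℝ) =
      (aeval ![x₁, x₂, y] : MvPolynomial (Fin 3) ℝ →ₐ[ℝ] MvPolynomial σ ℝ).toRingHom
        (F (C μ) (X 0) (X 1) (X 2)) from rfl, map_F]
    simp
  rw [e]
  refine (totalDegree_aeval_le _ ?_ _).trans ?_
  · intro i
    fin_cases i
    · exact h1
    · exact h2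
    · exact h3
  · have hx : ∀ i : Fin 3, (X i : MvPolynomial (Fin 3) ℝ).totalDegree ≤ 1 := fun i => by
      rw [totalDegree_X]
    have hc : ∀ a : ℝ, (C a : MvPolynomial (Fin 3) ℝ).totalDegree ≤ 0 := fun a => by
      rw [totalDegree_C]
    have hadd : ∀ (k : ℕ) (f g : MvPolynomial (Fin 3) ℝ), f.totalDegree ≤ k → g.totalDegree ≤ k →
        (f + g).totalDegree ≤ k := fun k f g hf hg => (totalDegree_add _ _).trans (max_le hf hg)
    have hsub : ∀ (k : ℕ) (f g : MvPolynomial (Fin 3) ℝ), f.totalDegree ≤ k → g.totalDegree ≤ k →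
        (f - g).totalDegree ≤ k := fun k f g hf hg => (totalDegree_sub _ _).trans (max_le hf hg)
    have hmul : ∀ (a b k : ℕ) (f g : MvPolynomial (Fin 3) ℝ), f.totalDegree ≤ a →
        g.totalDegree ≤ b → a + b ≤ k → (f * g).totalDegree ≤ k :=
      fun a b k f g hf hg hk => (totalDegree_mul _ _).trans ((add_le_add hf hg).trans hk)
    have hpow : ∀ (a n k : ℕ) (f : MvPolynomial (Fin 3) ℝ), f.totalDegree ≤ a → n * a ≤ k →
        (f ^ n).totalDegree ≤ k :=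
      fun a n k f hf hk => (totalDegree_pow _ _).trans ((Nat.mul_le_mul_left _ hf).trans hk)
    have hnum : ∀ (n : ℕ) [n.AtLeastTwo],
        (OfNat.ofNat n : MvPolynomial (Fin 3) ℝ).totalDegree ≤ 0 := fun n _ => by
      have : (OfNat.ofNat n : MvPolynomial (Fin 3) ℝ) = C (OfNat.ofNat n : ℝ) := by
        rw [map_ofNat]
      rw [this]
      exact hc _
    have hone : (1 : MvPolynomial (Fin 3) ℝ).totalDegree ≤ 0 := by rw [totalDegree_one]
    have hx1 : ∀ i : Fin 3, (1 + X i : MvPolynomial (Fin 3) ℝ).totalDegree ≤ 1 := fun i =>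
      hadd 1 _ _ (hone.trans (by omega)) (hx i)
    unfold F
    refine hadd _ _ _ (hadd _ _ _ (hadd _ _ _ (hsub _ _ _ (hsub _ _ _ (hsub _ _ _ ?_ ?_) ?_) ?_)
      ?_) ?_) ?_
    · exact hmul 1 1 3 _ _ (hmul 0 1 1 _ _ (hnum 31) (hx1 0) (by omega)) (hx1 1) (by omega)
    · exact hmul 0 3 3 _ _ (hnum 9) (hpow 1 3 3 _ (hx1 0) (by omega)) (by omega)
    · exact hmul 0 3 3 _ _ (hnum 9) (hpow 1 3 3 _ (hx1 1) (by omega)) (by omega)
    · exact (hnum 9).trans (by omega)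
    · refine hmul 2 1 3 _ _ (hmul 0 2 2 _ _ (hnum 18) (hsub _ _ _ (hmul 0 2 2 _ _ (hc μ) ?_
        (by omega)) ?_) (by omega)) (hx 2) (by omega)
      · refine hadd _ _ _ (hadd _ _ _ ((hnum 3).trans (by omega)) ?_) ?_
        · exact hmul 0 1 2 _ _ (hnum 2) (hadd _ _ _ (hx 0) (hx 1)) (by omega)
        · exact hmul 1 1 2 _ _ (hx 0) (hx 1) (by omega)
      · refine hadd _ _ _ (hadd _ _ _ (hadd _ _ _ ((hnum 3).trans (by omega)) ?_) ?_) ?_
        · exact hmul 0 1 2 _ _ (hnum 2) (hadd _ _ _ (hx 0) (hx 1)) (by omega)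
        · exact hpow 1 2 2 _ (hx 0) (by omega)
        · exact hpow 1 2 2 _ (hx 1) (by omega)
    · refine hmul 1 2 3 _ _ (hmul 0 1 1 _ _ (hmul 0 0 0 _ _ (hnum 9) (hsub _ _ _
        (hmul 0 0 0 _ _ (hnum 2) (hc μ) (by omega)) hone) (by omega)) ?_ (by omega))
        (hpow 1 2 2 _ (hx 2) (by omega)) (by omega)
      exact hadd _ _ _ (hadd _ _ _ ((hnum 3).trans (by omega)) (hx 0)) (hx 1)
    · exact hmul 0 3 3 _ _ (hmul 0 0 0 _ _ (hnum 18) (hc μ) (by omega))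
        (hpow 1 3 3 _ (hx 2) (by omega)) (by omega)


/-- For all `m, n ≥ 1` there are real zero polynomials `p ∈ ℝ[x₁, x₂, y₁, …, y_m]` and
`q ∈ ℝ[x₁, x₂, z₁, …, z_n]` of degree at most `3` with `p(x, 0) = q(x, 0)` such that no real zero
polynomial `r ∈ ℝ[x, y, z]` of degree at most `3` satisfies `r(x, y, 0) = p` and
`r(x, 0, z) = q`. -/
theorem result (m n : ℕ) (hm : 1 ≤ m) (hn : 1 ≤ n) :
    ∃ (p : MvPolynomial (Fin 2 ⊕ Fin m) ℝ) (q : MvPolynomial (Fin 2 ⊕ Fin n) ℝ),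
      IsRealZero p ∧ IsRealZero q ∧ p.totalDegree ≤ 3 ∧ q.totalDegree ≤ 3 ∧
      sharedPart p = sharedPart q ∧
      ¬ ∃ r : MvPolynomial (Fin 2 ⊕ (Fin m ⊕ Fin n)) ℝ,
        IsRealZero r ∧ r.totalDegree ≤ 3 ∧ setZ r = p ∧ setY r = q := by
  have h7 : Real.sqrt 7 ^ 2 = 7 := Real.sq_sqrt (by norm_num)
  have h7p : 0 ≤ Real.sqrt 7 := Real.sqrt_nonneg 7
  have h7u : Real.sqrt 7 < 11 / 4 := by nlinarith
  obtain ⟨μ, hμd⟩ : ∃ μ : ℝ, μ = (1 - 2 * Real.sqrt 7) / 9 := ⟨_, rfl⟩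
  obtain ⟨μ', hμd'⟩ : ∃ μ' : ℝ, μ' = (1 + 2 * Real.sqrt 7) / 9 := ⟨_, rfl⟩
  have hμ : 9 * μ ^ 2 = 2 * μ + 3 := by rw [hμd]; linear_combination (4 / 9) * h7
  have hμ2 : 9 * μ' ^ 2 = 2 * μ' + 3 := by rw [hμd']; linear_combination (4 / 9) * h7
  have hμ' : μ' = 2 / 9 - μ := by rw [hμd, hμd']; ring
  have b1 : -1 / 2 < μ := by rw [hμd]; linarith
  have b2 : μ < 1 := by rw [hμd]; linarith
  have b3 : -1 / 2 < μ' := by rw [hμd']; linarith
  have b4 : μ' < 1 := by rw [hμd']; linarith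
  have hrz : ∀ (k : ℕ) (hk : 1 ≤ k) (ν : ℝ), 9 * ν ^ 2 = 2 * ν + 3 → -1 / 2 < ν → ν < 1 →
      IsRealZero (F (C ν) (X (Sum.inl 0)) (X (Sum.inl 1)) (X (Sum.inr ⟨0, hk⟩)) :
        MvPolynomial (Fin 2 ⊕ Fin k) ℝ) := by
    intro k hk ν hν c1 c2 a t ht
    rw [show aeval (fun i => t * (a i : ℂ)) (F (C ν) (X (Sum.inl 0)) (X (Sum.inl 1))
      (X (Sum.inr ⟨0, hk⟩)) : MvPolynomial (Fin 2 ⊕ Fin k) ℝ) =
      (aeval (fun i => t * (a i : ℂ)) : MvPolynomial (Fin 2 ⊕ Fin k) ℝ →ₐ[ℝ] ℂ).toRingHom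
        (F (C ν) (X (Sum.inl 0)) (X (Sum.inl 1)) (X (Sum.inr ⟨0, hk⟩))) from rfl, map_F] at ht
    apply F_realZero ν hν c1 c2 (a (Sum.inl 0)) (a (Sum.inl 1)) (a (Sum.inr ⟨0, hk⟩)) t
    simpa using ht
  have hsp : ∀ (k : ℕ) (hk : 1 ≤ k) (ν : ℝ),
      sharedPart (F (C ν) (X (Sum.inl 0)) (X (Sum.inl 1)) (X (Sum.inr ⟨0, hk⟩)) :
        MvPolynomial (Fin 2 ⊕ Fin k) ℝ) = F (C ν) (X 0) (X 1) 0 := by
    intro k hk ν
    unfold sharedPart
    rw [show aeval (Sum.elim (fun i => X i) (fun _ => 0)) (F (C ν) (X (Sum.inl 0)) (X (Sum.inl 1))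
      (X (Sum.inr ⟨0, hk⟩)) : MvPolynomial (Fin 2 ⊕ Fin k) ℝ) =
      (aeval (Sum.elim (fun i => X i) (fun _ => 0)) :
        MvPolynomial (Fin 2 ⊕ Fin k) ℝ →ₐ[ℝ] MvPolynomial (Fin 2) ℝ).toRingHom
        (F (C ν) (X (Sum.inl 0)) (X (Sum.inl 1)) (X (Sum.inr ⟨0, hk⟩))) from rfl, map_F]
    simp
  refine ⟨F (C μ) (X (Sum.inl 0)) (X (Sum.inl 1)) (X (Sum.inr ⟨0, hm⟩)),
    F (C μ') (X (Sum.inl 0)) (X (Sum.inl 1)) (X (Sum.inr ⟨0, hn⟩)), hrz m hm μ hμ b1 b2,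
    hrz n hn μ' hμ2 b3 b4, totalDegree_F _ _ _ _ (by rw [totalDegree_X]) (by rw [totalDegree_X])
      (by rw [totalDegree_X]), totalDegree_F _ _ _ _ (by rw [totalDegree_X])
      (by rw [totalDegree_X]) (by rw [totalDegree_X]), ?_, ?_⟩
  · rw [hsp, hsp]
    exact F_zero _ _ _ _
  rintro ⟨r, hr, hrd, hrp, hrq⟩
  let g : Fin 2 ⊕ (Fin m ⊕ Fin n) → MvPolynomial (Fin 4) ℝ :=
    Sum.elim ![X 0, X 1] (Sum.elim (fun j => if (j : ℕ) = 0 then X 2 else 0)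
      (fun j => if (j : ℕ) = 0 then X 3 else 0))
  have hgd : ∀ i, (g i).totalDegree ≤ 1 := by
    rintro (i | i | i)
    · fin_cases i <;> simp [g, totalDegree_X]
    · simp only [g, Sum.elim_inr, Sum.elim_inl]
      split_ifs <;> simp [totalDegree_X]
    · simp only [g, Sum.elim_inr]
      split_ifs <;> simp [totalDegree_X]
  refine main4 hμ hμ' (aeval g r) ?_ ((totalDegree_aeval_le g hgd r).trans hrd) ?_ ?_
    (totalDegree_F _ _ _ _ (by rw [totalDegree_X]) (by rw [totalDegree_X])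
      (by rw [totalDegree_X]))
    (totalDegree_F _ _ _ _ (by rw [totalDegree_X]) (by rw [totalDegree_X])
      (by rw [totalDegree_X]))
    (totalDegree_F _ _ _ _ (by rw [totalDegree_X]) (by rw [totalDegree_X])
      (by rw [totalDegree_zero]; omega))
  · intro a t ht
    apply hr (Sum.elim ![a 0, a 1] (Sum.elim (fun j => if (j : ℕ) = 0 then a 2 else 0)
      (fun j => if (j : ℕ) = 0 then a 3 else 0))) t
    rw [← ht]
    have hcomp : ((aeval (fun i => t * (a i : ℂ)) : MvPolynomial (Fin 4) ℝ →ₐ[ℝ] ℂ).comp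
        (aeval g)) = aeval (fun s => t * (((Sum.elim ![a 0, a 1]
          (Sum.elim (fun j : Fin m => if (j : ℕ) = 0 then a 2 else 0)
          (fun j : Fin n => if (j : ℕ) = 0 then a 3 else 0))) s : ℝ) : ℂ)) := by
      apply MvPolynomial.algHom_ext
      rintro (i | i | i)
      · fin_cases i <;> simp [g]
      · by_cases hi : (i : ℕ) = 0 <;> simp [g, hi]
      · by_cases hi : (i : ℕ) = 0 <;> simp [g, hi]
    exact (DFunLike.congr_fun hcomp r).symm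
  · have hcomp : ((aeval (fun j => if j = 3 then (0 : MvPolynomial (Fin 4) ℝ) else X j) :
        MvPolynomial (Fin 4) ℝ →ₐ[ℝ] MvPolynomial (Fin 4) ℝ).comp (aeval g)) =
        (aeval (Sum.elim ![X 0, X 1] (fun j => if (j : ℕ) = 0 then X 2 else 0)) :
          MvPolynomial (Fin 2 ⊕ Fin m) ℝ →ₐ[ℝ] MvPolynomial (Fin 4) ℝ).comp
        (aeval (Sum.elim (fun i => X (Sum.inl i)) (Sum.elim (fun j => X (Sum.inr j))
          (fun _ => 0)))) := by
      apply MvPolynomial.algHom_ext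
      rintro (i | i | i)
      · fin_cases i <;> simp [g]
      · by_cases hi : (i : ℕ) = 0 <;> simp [g, hi]
      · by_cases hi : (i : ℕ) = 0 <;> simp [g, hi]
    have h2 := DFunLike.congr_fun hcomp r
    rw [AlgHom.comp_apply, AlgHom.comp_apply] at h2
    rw [h2]
    unfold setZ at hrp
    rw [hrp]
    rw [show aeval (Sum.elim ![X 0, X 1] (fun j : Fin m => if (j : ℕ) = 0 then
      (X 2 : MvPolynomial (Fin 4) ℝ) else 0)) (F (C μ) (X (Sum.inl 0)) (X (Sum.inl 1))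
      (X (Sum.inr ⟨0, hm⟩)) : MvPolynomial (Fin 2 ⊕ Fin m) ℝ) =
      (aeval (Sum.elim ![X 0, X 1] (fun j => if (j : ℕ) = 0 then X 2 else 0)) :
        MvPolynomial (Fin 2 ⊕ Fin m) ℝ →ₐ[ℝ] MvPolynomial (Fin 4) ℝ).toRingHom
        (F (C μ) (X (Sum.inl 0)) (X (Sum.inl 1)) (X (Sum.inr ⟨0, hm⟩))) from rfl, map_F]
    simp
  · have hcomp : ((aeval (fun j => if j = 2 then (0 : MvPolynomial (Fin 4) ℝ) else X j) :
        MvPolynomial (Fin 4) ℝ →ₐ[ℝ] MvPolynomial (Fin 4) ℝ).comp (aeval g)) =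
        (aeval (Sum.elim ![X 0, X 1] (fun j => if (j : ℕ) = 0 then X 3 else 0)) :
          MvPolynomial (Fin 2 ⊕ Fin n) ℝ →ₐ[ℝ] MvPolynomial (Fin 4) ℝ).comp
        (aeval (Sum.elim (fun i => X (Sum.inl i)) (Sum.elim (fun _ => 0)
          (fun j => X (Sum.inr j))))) := by
      apply MvPolynomial.algHom_ext
      rintro (i | i | i)
      · fin_cases i <;> simp [g]
      · by_cases hi : (i : ℕ) = 0 <;> simp [g, hi]
      · by_cases hi : (i : ℕ) = 0 <;> simp [g, hi]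
    have h2 := DFunLike.congr_fun hcomp r
    rw [AlgHom.comp_apply, AlgHom.comp_apply] at h2
    rw [h2]
    unfold setY at hrq
    rw [hrq]
    rw [show aeval (Sum.elim ![X 0, X 1] (fun j : Fin n => if (j : ℕ) = 0 then
      (X 3 : MvPolynomial (Fin 4) ℝ) else 0)) (F (C μ') (X (Sum.inl 0)) (X (Sum.inl 1))
      (X (Sum.inr ⟨0, hn⟩)) : MvPolynomial (Fin 2 ⊕ Fin n) ℝ) =
      (aeval (Sum.elim ![X 0, X 1] (fun j => if (j : ℕ) = 0 then X 3 else 0)) :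
        MvPolynomial (Fin 2 ⊕ Fin n) ℝ →ₐ[ℝ] MvPolynomial (Fin 4) ℝ).toRingHom
        (F (C μ') (X (Sum.inl 0)) (X (Sum.inl 1)) (X (Sum.inr ⟨0, hn⟩))) from rfl, map_F]
    simp

end Pool.Agent.Results.MP_eea824_ag.NoCubicAmalgamH5
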